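import Pool.Agent.Y664.LC.Concl

/-!
# Spectral types of limit-periodic Schroedinger operators: many small couplings against coupling one

There is one limit-periodic potential `V` such that the spectrum of `Δ + V` is a Lebesgue null set,
while `Δ + a V` has a nonzero absolutely continuous part for all `a` in a set of couplings of
measure at least `2 ^ (-34)` contained in `(0, 2 ^ (-33))`.

Proof. The potential is the limit of periodic potentials `V_k`, as in the earlier result for one
small coupling: `V_{k+1}` is `V_k` on one half of the (long) new period and `V_k + ε_k` on the other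
half, where `ε_k` is so small that the bands of `Δ + V_k` and `Δ + V_k + ε_k` are disjoint up to a
small neighbourhood of their end points. The good energies are replaced by the good pairs
(coupling, energy): the number of periods is chosen such that the phase of the monodromy matrix
is far from the multiples of `π` for most pairs with respect to the plane Lebesgue measure. The pairs
which are good at all levels are a set of measure at least `2 ^ (-33)` in the rectangle
`(0, 2 ^ (-33)) × (-1, 1)`, and Fubini gives the set of couplings.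
-/

set_option autoImplicit false

namespace Pool.Agent.Results.MP_c5cda2_mp.ManyCouplings

open MeasureTheory Filter Topology

/-- the Hilbert space `ℓ²(ℤ)` -/
abbrev L2 : Type := lp (fun _ : ℤ => ℂ) 2

/-- `V` is limit-periodic: a uniform limit of periodic real sequences -/
def LimitPeriodic (V : ℤ → ℝ) : Prop :=
  ∃ W : ℕ → ℤ → ℝ, (∀ k, ∃ p : ℕ, 1 ≤ p ∧ ∀ n : ℤ, W k (n + p) = W k n) ∧
    TendstoUniformly W V atTop

/-- `H` is the operator `Δ + V` on `ℓ²(ℤ)` -/
def IsSchrodinger (V : ℤ → ℝ) (H : L2 →L[ℂ] L2) : Prop :=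
  ∀ (ψ : L2) (n : ℤ), H ψ n = ψ (n - 1) + ψ (n + 1) + (V n : ℂ) * ψ n

/-- the operator `f(H)` of the continuous functional calculus, for a bounded self-adjoint operator
`H` on a complex Hilbert space -/
noncomputable def functionOf {X : Type} [NormedAddCommGroup X] [InnerProductSpace ℂ X]
    [CompleteSpace X] (f : ℝ → ℝ) (H : X →L[ℂ] X) : X →L[ℂ] X := cfc f H

/-- `μ` is the spectral measure of the vector `ψ` for the self-adjoint operator `H`: a finite Borel
measure on the line with `⟨ψ, f(H) ψ⟩ = ∫ f dμ` for every continuous real `f`. -/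
def IsSpectralMeasure (H : L2 →L[ℂ] L2) (ψ : L2) (μ : Measure ℝ) : Prop :=
  IsFiniteMeasure μ ∧ ∀ f : ℝ → ℝ, Continuous f → Integrable f μ ∧
    inner ℂ ψ (functionOf f H ψ) = ((∫ x, f x ∂μ : ℝ) : ℂ)

/-- the three labels -/
inductive Label
  | ac
  | sc
  | pp

/-- measures of the three types: absolutely continuous, singular without atoms, and carried by a
countable set -/
def HasLabel : Label → Measure ℝ → Prop
  | Label.ac, μ => μ ≪ volume
  | Label.sc, μ => μ.MutuallySingular volume ∧ ∀ x, μ {x} = 0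
  | Label.pp, μ => ∃ S : Set ℝ, S.Countable ∧ μ Sᶜ = 0

/-- the spectral type of `H`: the set of labels `t` for which the spectral subspace `ℋ_t` (the
vectors whose spectral measure has the label `t`) is not `{0}` -/
def spectralType (H : L2 →L[ℂ] L2) : Set Label :=
  {t | ∃ ψ : L2, ψ ≠ 0 ∧ ∃ μ : Measure ℝ, IsSpectralMeasure H ψ μ ∧ HasLabel t μ}

/-- **Many couplings.** There are a limit-periodic potential `V` and a measurable set `A` of
couplings, contained in `(0, 2 ^ (-33))` and of measure at least `2 ^ (-34)`, such that the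
self-adjoint operator `Δ + a V` has a nonzero absolutely continuous part for every `a ∈ A`, while the
spectrum of `Δ + V` is a Lebesgue null set and its absolutely continuous part is zero. -/
theorem result : ∃ V : ℤ → ℝ, LimitPeriodic V ∧
    ∃ H : L2 →L[ℂ] L2, IsSchrodinger V H ∧ IsSelfAdjoint H ∧ Label.ac ∉ spectralType H ∧
      volume (spectrum ℝ H) = 0 ∧
    ∃ A : Set ℝ, MeasurableSet A ∧ A ⊆ Set.Ioo 0 (1 / 2 ^ 33) ∧
      ENNReal.ofReal (1 / 2 ^ 34) ≤ volume A ∧
      ∀ a ∈ A, ∃ Ha : L2 →L[ℂ] L2, IsSchrodinger (fun n => a * V n) Ha ∧ IsSelfAdjoint Ha ∧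
        Label.ac ∈ spectralType Ha ∧ spectralType Ha ≠ spectralType H := by
  obtain ⟨H, hH, hs⟩ := Pool.Agent.H695R3.ST.exists_schr Pool.Agent.Y664.LC.VV_bdd
  have hnull := Pool.Agent.Y664.LC.null_spec hH
  have h2 : Label.ac ∉ spectralType H := by
    rintro ⟨ψ, hψ, μ, ⟨hfin, hμ⟩, hac⟩
    exact hψ (Pool.Agent.W810.LP.no_ac hnull ψ μ
      (fun f hf => ⟨(hμ f hf).1, (hμ f hf).2.symm⟩) hac hs)
  refine ⟨Pool.Agent.Y664.LC.VV, ?_, H, ?_, hs, h2, hnull, Pool.Agent.Y664.LC.AA,
    Pool.Agent.Y664.LC.AA_meas, Pool.Agent.Y664.LC.AA_sub, ?_, ?_⟩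
  · refine ⟨fun k => (Pool.Agent.Y664.LC.lev k).V,
      fun k => ⟨(Pool.Agent.Y664.LC.lev k).N, (Pool.Agent.Y664.LC.lev k).hN,
        (Pool.Agent.Y664.LC.lev k).hV⟩, ?_⟩
    rw [Metric.tendstoUniformly_iff]
    intro ε hε
    have hlim : Tendsto (fun k : ℕ => 64 / 7 * (1 / 8 : ℝ) ^ k) atTop (𝓝 (64 / 7 * 0)) :=
      (tendsto_pow_atTop_nhds_zero_of_lt_one (by norm_num) (by norm_num)).const_mul _
    rw [mul_zero] at hlim
    filter_upwards [hlim.eventually (gt_mem_nhds hε)] with k hk n
    rw [Real.dist_eq]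
    refine lt_of_le_of_lt (Pool.Agent.Y664.LC.VV_near k n) (lt_of_le_of_lt ?_ hk)
    exact div_le_self (by positivity) (Pool.Agent.Y664.LC.lev_N_pos k)
  · intro ψ n
    rw [hH]
    ring
  · refine le_trans (le_of_eq ?_) Pool.Agent.Y664.LC.AA_vol
    congr 1
    unfold Pool.Agent.Y664.LC.a0
    norm_num
  · intro a ha
    have haI := Pool.Agent.Y664.LC.AA_sub ha
    have ha1 : a ≤ 1 := haI.2.le.trans (by unfold Pool.Agent.Y664.LC.a0; norm_num)
    have hb1 : ∀ n, |a * Pool.Agent.Y664.LC.VV n| ≤ 10 := by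
      intro n
      rw [abs_mul, abs_of_pos haI.1]
      have h1 := Pool.Agent.Y664.LC.VV_bdd n
      calc a * |Pool.Agent.Y664.LC.VV n| ≤ 1 * 10 := by gcongr
        _ = 10 := by norm_num
    obtain ⟨H₁, hH₁, hs₁⟩ := Pool.Agent.H695R3.ST.exists_schr hb1
    have h1 : Label.ac ∈ spectralType H₁ := by
      obtain ⟨S, hS, hS0, hK⟩ := Pool.Agent.Y664.LC.ac_set ha
      have hns := Pool.Agent.H585R3.AC508.not_singular
        (fun n => a * Pool.Agent.Y664.LC.VV n) 10 hb1 H₁ hH₁ hs₁
        (Pool.Agent.H54R3.Spec508.mu H₁ (lp.single 2 (0 : ℤ) (1 : ℂ)))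
        (fun f hf => Pool.Agent.H54R3.Spec508.key2 H₁ _ f hf) S hS hS0 (4 * 4 ^ 2) (by
          intro E hE u hu
          apply hK E hE u
          intro n
          have := hu n
          simp only [Pool.Agent.H508R3.HE]
          linarith)
      obtain ⟨ψ, μ, hψ, hfin, hμ, hac⟩ := Pool.Agent.W810.LP.exists_ac hs₁ _ hns
      exact ⟨ψ, hψ, μ, ⟨hfin, fun f hf => ⟨(hμ f hf).1, (hμ f hf).2.symm⟩⟩, hac⟩
    refine ⟨H₁, ?_, hs₁, h1, ?_⟩
    · intro ψ n
      rw [hH₁]
      ring
    · intro h
      rw [h] at h1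
      exact h2 h1

end Pool.Agent.Results.MP_c5cda2_mp.ManyCouplings
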